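import Mathlib
import Pool.Agent.H234RC.T1

set_option autoImplicit false

namespace Pool.Agent.W862.RC

open Pool.Agent.H234RC Finset

variable {V : Type} [Fintype V]

open Classical in
noncomputable def av (G : SimpleGraph V) (a b : V) : ℤ := if G.Adj a b then 1 else 0

omit [Fintype V] in
theorem av_eq {G H : SimpleGraph V} {a b c d : V} (h : H.Adj a b ↔ G.Adj c d) :
    av H a b = av G c d := by
  unfold av
  by_cases h1 : H.Adj a b
  · rw [if_pos h1, if_pos (h.1 h1)]
  · rw [if_neg h1, if_neg (fun h2 => h1 (h.2 h2))]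

omit [Fintype V] in
theorem of_av {G H : SimpleGraph V} {a b c d : V} (h : av H a b = av G c d) :
    H.Adj a b ↔ G.Adj c d := by
  unfold av at h
  by_cases h1 : H.Adj a b <;> by_cases h2 : G.Adj c d <;> simp_all

omit [Fintype V] in
theorem av_self (G : SimpleGraph V) (a : V) : av G a a = 0 := by simp [av]

omit [Fintype V] in
theorem av_symm (G : SimpleGraph V) (a b : V) : av G a b = av G b a :=
  av_eq (G.adj_comm a b)

noncomputable def A (G : SimpleGraph V) : ℤ := ∑ a, ∑ b, av G a b

noncomputable def dg (G : SimpleGraph V) (a : V) : ℤ := ∑ b, av G a b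

open Classical in
noncomputable def cs (G : SimpleGraph V) (w : V) : ℤ :=
  ∑ a, ∑ b, if a = w ∨ b = w then 0 else av G a b

theorem cs_eq {G H : SimpleGraph V} {π : V → Equiv.Perm V} (h : Hypo G H π) (w : V) :
    cs H w = cs G w := by
  classical
  unfold cs
  rw [← Equiv.sum_comp (π w)]
  apply Finset.sum_congr rfl
  intro a _
  rw [← Equiv.sum_comp (π w)]
  apply Finset.sum_congr rfl
  intro b _
  have hw := h.fix w
  have ha : π w a = w ↔ a = w := by
    constructor
    · intro h1
      apply (π w).injective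
      rw [h1, hw]
    · intro h1
      rw [h1, hw]
  have hb : π w b = w ↔ b = w := by
    constructor
    · intro h1
      apply (π w).injective
      rw [h1, hw]
    · intro h1
      rw [h1, hw]
  by_cases hc : a = w ∨ b = w
  · rw [if_pos hc, if_pos]
    rcases hc with hc | hc
    · exact Or.inl (ha.2 hc)
    · exact Or.inr (hb.2 hc)
  · rw [if_neg hc, if_neg]
    · rw [not_or] at hc
      exact av_eq (h.adj w a b hc.1 hc.2)
    · rw [ha, hb]
      exact hc

theorem cs_sum (G : SimpleGraph V) : ∑ w, cs G w = ((Fintype.card V : ℤ) - 2) * A G := by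
  classical
  unfold cs A
  rw [Finset.sum_comm, Finset.mul_sum]
  apply Finset.sum_congr rfl
  intro a _
  rw [Finset.sum_comm, Finset.mul_sum]
  apply Finset.sum_congr rfl
  intro b _
  by_cases hab : a = b
  · subst hab
    simp [av_self]
  · have : ∀ w : V, (if a = w ∨ b = w then (0 : ℤ) else av G a b) =
        av G a b - (if a = w then av G a b else 0) - (if b = w then av G a b else 0) := by
      intro w
      by_cases h1 : a = w
      · have h2 : ¬ b = w := fun h2 => hab (h1.trans h2.symm)
        simp [h1, h2]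
      · by_cases h2 : b = w
        · simp [h1, h2]
        · simp [h1, h2]
    simp only [this, Finset.sum_sub_distrib, Finset.sum_ite_eq, Finset.mem_univ, if_true,
      Finset.sum_const, Finset.card_univ, nsmul_eq_mul]
    ring

theorem cs_dg (G : SimpleGraph V) (w : V) : cs G w = A G - 2 * dg G w := by
  classical
  unfold cs A dg
  have : ∀ a b : V, (if a = w ∨ b = w then (0 : ℤ) else av G a b) =
        av G a b - (if a = w then av G w b else 0) - (if b = w then av G w a else 0) := by
    intro a b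
    by_cases h1 : a = w
    · subst h1
      by_cases h2 : b = a
      · subst h2
        simp [av_self]
      · simp [h2]
    · by_cases h2 : b = w
      · subst h2
        simp [h1, av_symm G a b]
      · simp [h1, h2]
  simp only [this, Finset.sum_sub_distrib]
  have e1 : ∑ a : V, ∑ b : V, (if a = w then av G w b else 0) = ∑ b, av G w b := by
    rw [Finset.sum_comm]
    apply Finset.sum_congr rfl
    intro b _
    simp
  have e2 : ∑ a : V, ∑ b : V, (if b = w then av G w a else 0) = ∑ b, av G w b := by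
    apply Finset.sum_congr rfl
    intro b _
    simp
  rw [e1, e2]
  ring

theorem A_eq {G H : SimpleGraph V} {π : V → Equiv.Perm V} (h : Hypo G H π)
    (hn : 3 ≤ Fintype.card V) : A H = A G := by
  have h1 : ∑ w, cs H w = ∑ w, cs G w := Finset.sum_congr rfl (fun w _ => cs_eq h w)
  rw [cs_sum, cs_sum] at h1
  have h2 : ((Fintype.card V : ℤ) - 2) ≠ 0 := by
    have : (3 : ℤ) ≤ Fintype.card V := by exact_mod_cast hn
    omega
  exact mul_left_cancel₀ h2 h1

theorem dg_eq {G H : SimpleGraph V} {π : V → Equiv.Perm V} (h : Hypo G H π)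
    (hn : 3 ≤ Fintype.card V) (w : V) : dg H w = dg G w := by
  have h1 := cs_eq h w
  rw [cs_dg, cs_dg, A_eq h hn] at h1
  linarith

/-- A bijection that preserves all pairs but one preserves that pair. -/
theorem one_pair {G H : SimpleGraph V} (hA : A H = A G) (f : Equiv.Perm V) (u x : V) (hux : u ≠ x)
    (hf : ∀ a b, ¬ (a = u ∧ b = x) → ¬ (a = x ∧ b = u) → (H.Adj (f a) (f b) ↔ G.Adj a b)) :
    ∀ a b, H.Adj (f a) (f b) ↔ G.Adj a b := by
  classical
  set δ : ℤ := av H (f u) (f x) - av G u x with hδ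
  have hpt : ∀ a b, av H (f a) (f b) - av G a b =
      (if a = u then (if b = x then δ else 0) else 0) +
        (if a = x then (if b = u then δ else 0) else 0) := by
    intro a b
    by_cases h1 : a = u ∧ b = x
    · obtain ⟨rfl, rfl⟩ := h1
      simp [hux, hδ]
    · by_cases h2 : a = x ∧ b = u
      · obtain ⟨rfl, rfl⟩ := h2
        simp [hux.symm, hδ, av_symm H (f a) (f b), av_symm G a b]
      · rw [av_eq (hf a b h1 h2), sub_self]
        by_cases h3 : a = u
        · have h4 : ¬ b = x := fun h4 => h1 ⟨h3, h4⟩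
          by_cases h5 : a = x
          · exact absurd (h3.symm.trans h5) hux
          · simp [h3, h4, hux]
        · by_cases h5 : a = x
          · have h6 : ¬ b = u := fun h6 => h2 ⟨h5, h6⟩
            simp [h5, h6, hux.symm]
          · simp [h3, h5]
  have hs : A H - A G = δ + δ := by
    have e1 : A H = ∑ a, ∑ b, av H (f a) (f b) := by
      unfold A
      rw [← Equiv.sum_comp f]
      apply Finset.sum_congr rfl
      intro a _
      rw [← Equiv.sum_comp f]
    rw [e1]
    unfold A
    rw [← Finset.sum_sub_distrib]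
    simp only [← Finset.sum_sub_distrib, hpt, Finset.sum_add_distrib]
    congr 1
    · rw [Finset.sum_eq_single u]
      · simp
      · intro a _ ha
        simp [ha]
      · simp
    · rw [Finset.sum_eq_single x]
      · simp
      · intro a _ ha
        simp [ha]
      · simp
  have hδ0 : δ = 0 := by
    rw [hA, sub_self] at hs
    omega
  intro a b
  apply of_av
  have := hpt a b
  rw [hδ0] at this
  simp only [ite_self, add_zero] at this
  linarith

open Classical in
theorem dg_ncard (G : SimpleGraph V) (a : V) : dg G a = ((G.neighborSet a).ncard : ℤ) := by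
  unfold dg av
  rw [Finset.sum_boole]
  congr 1
  rw [← Set.ncard_coe_finset]
  congr 1
  ext z
  simp [SimpleGraph.mem_neighborSet]

open Classical in
theorem dgm_ncard (G : SimpleGraph V) (a b : V) :
    dg G a - av G a b = (({z | z ≠ b ∧ G.Adj a z} : Set V).ncard : ℤ) := by
  have h1 : (({z | z ≠ b ∧ G.Adj a z} : Set V).ncard : ℤ) =
      ∑ z, if z ≠ b ∧ G.Adj a z then (1 : ℤ) else 0 := by
    rw [Finset.sum_boole]
    congr 1
    rw [← Set.ncard_coe_finset]
    congr 1
    ext z
    simp
  rw [h1]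
  have h2 : av G a b = ∑ z, if z = b then av G a z else 0 := by simp
  rw [h2]
  unfold dg
  rw [← Finset.sum_sub_distrib]
  apply Finset.sum_congr rfl
  intro z _
  by_cases hz : z = b
  · simp [hz]
  · simp [hz, av]

/-- the hypothesis -/
def Cross (G : SimpleGraph V) (u v : V) : Prop :=
  ∀ x y : V, x ≠ u → y ≠ v →
    (∃ ε : ℕ, ε ≤ 1 ∧ ({z | z ≠ u ∧ G.Adj x z} : Set V).ncard + ε = (G.neighborSet v).ncard ∧
      ({z | z ≠ v ∧ G.Adj y z} : Set V).ncard + ε = (G.neighborSet u).ncard) →
    ∀ φ : G.induce {z | z ≠ u ∧ z ≠ x} ≃g G.induce {z | z ≠ v ∧ z ≠ y},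
      ∃ α : G ≃g G, α u = y ∧ α x = v ∧ ∀ z : {z | z ≠ u ∧ z ≠ x}, α z = φ z

theorem deg_card {G H : SimpleGraph V} {π : V → Equiv.Perm V} (h : Hypo G H π)
    (hn : 3 ≤ Fintype.card V) (u v x : V) (hxu : x ≠ u) (hfx : π u x = v) :
    ((({z | z ≠ u ∧ G.Adj x z} : Set V).ncard : ℕ) : ℤ) + av H v u = ((G.neighborSet v).ncard : ℤ) := by
  classical
  rw [← dgm_ncard, ← dg_ncard]
  have h1 : dg H v = ∑ c, av H (π u x) (π u c) := by
    rw [hfx]
    unfold dg
    rw [← Equiv.sum_comp (π u)]
  have h2 : dg H v - dg G x = av H (π u x) (π u u) - av G x u := by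
    rw [h1]
    unfold dg
    rw [← Finset.sum_sub_distrib, Finset.sum_eq_single u]
    · intro c _ hc
      rw [av_eq (h.adj u x c hxu hc), sub_self]
    · simp
  rw [hfx, h.fix u] at h2
  rw [dg_eq h hn] at h2
  linarith

theorem cross (G : SimpleGraph V) (hn : 3 ≤ Fintype.card V) (u v : V) (huv : u ≠ v)
    (hc : Cross G u v) : Reconstructible G := by
  classical
  by_contra hcon
  obtain ⟨H, π, h, hN⟩ := exists_hypo G hcon
  let f := π u
  let g := π v
  have hfu : f u = u := h.fix u
  have hgv : g v = v := h.fix v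
  let x := f.symm v
  let y := g.symm u
  have hfx : f x = v := by simp [x]
  have hgy : g y = u := by simp [y]
  have hxu : x ≠ u := by
    intro he
    rw [he, hfu] at hfx
    exact huv hfx
  have hyv : y ≠ v := by
    intro he
    rw [he, hgv] at hgy
    exact huv hgy.symm
  let ψ : Equiv.Perm V := f.trans g.symm
  have hψ : ∀ a, g (ψ a) = f a := by
    intro a
    simp [ψ]
  have hψu : ψ u = y := by
    apply g.injective
    rw [hψ, hfu, hgy]
  have hψx : ψ x = v := by
    apply g.injective
    rw [hψ, hfx, hgv]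
  have hψv : ∀ a, ψ a = v ↔ a = x := by
    intro a
    rw [← hψx]
    exact ψ.injective.eq_iff
  have hψy : ∀ a, ψ a = y ↔ a = u := by
    intro a
    rw [← hψu]
    exact ψ.injective.eq_iff
  have hψadj : ∀ a b, a ≠ u → a ≠ x → b ≠ u → b ≠ x → (G.Adj (ψ a) (ψ b) ↔ G.Adj a b) := by
    intro a b ha1 ha2 hb1 hb2
    rw [← h.adj u a b ha1 hb1, ← h.adj v (ψ a) (ψ b) (fun he => ha2 ((hψv a).1 he))
      (fun he => hb2 ((hψv b).1 he))]
    show H.Adj (g (ψ a)) (g (ψ b)) ↔ H.Adj (f a) (f b)
    rw [hψ, hψ]
  let φ : G.induce {z | z ≠ u ∧ z ≠ x} ≃g G.induce {z | z ≠ v ∧ z ≠ y} :=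
    { toEquiv := ψ.subtypeEquiv (fun a => by
        show (a ≠ u ∧ a ≠ x) ↔ (ψ a ≠ v ∧ ψ a ≠ y)
        rw [Ne, Ne, Ne, Ne, hψv, hψy]
        tauto)
      map_rel_iff' := by
        intro a b
        exact hψadj a.1 b.1 a.2.1 a.2.2 b.2.1 b.2.2 }
  have hε : ∃ ε : ℕ, ε ≤ 1 ∧ ({z | z ≠ u ∧ G.Adj x z} : Set V).ncard + ε = (G.neighborSet v).ncard ∧
      ({z | z ≠ v ∧ G.Adj y z} : Set V).ncard + ε = (G.neighborSet u).ncard := by
    have e1 := deg_card h hn u v x hxu hfx
    have e2 := deg_card h hn v u y hyv hgy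
    rw [av_symm H u v] at e2
    by_cases hadj : H.Adj v u
    · refine ⟨1, le_refl _, ?_, ?_⟩
      · have : av H v u = 1 := by simp [av, hadj]
        rw [this] at e1
        exact_mod_cast e1
      · have : av H v u = 1 := by simp [av, hadj]
        rw [this] at e2
        exact_mod_cast e2
    · refine ⟨0, by norm_num, ?_, ?_⟩
      · have : av H v u = 0 := by simp [av, hadj]
        rw [this] at e1
        exact_mod_cast e1
      · have : av H v u = 0 := by simp [av, hadj]
        rw [this] at e2
        exact_mod_cast e2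
  obtain ⟨α, hαu, hαx, hα⟩ := hc x y hxu hyv hε φ
  have hαψ : ∀ a, α a = ψ a := by
    intro a
    by_cases h1 : a = u
    · rw [h1, hαu, hψu]
    · by_cases h2 : a = x
      · rw [h2, hαx, hψx]
      · exact hα ⟨a, h1, h2⟩
  have hψall : ∀ a b, G.Adj (ψ a) (ψ b) ↔ G.Adj a b := by
    intro a b
    rw [← hαψ, ← hαψ]
    exact α.map_adj_iff
  apply hN
  refine ⟨f, one_pair (A_eq h hn) f u x hxu.symm ?_⟩
  intro a b h1 h2
  by_cases ha : a = u
  · by_cases hb : b = x
    · exact absurd ⟨ha, hb⟩ h1
    · by_cases hax : a = x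
      · exact absurd (hax.symm.trans ha) hxu
      · rw [← hψall a b, ← h.adj v (ψ a) (ψ b) (fun he => hax ((hψv a).1 he))
          (fun he => hb ((hψv b).1 he))]
        show H.Adj (f a) (f b) ↔ H.Adj (g (ψ a)) (g (ψ b))
        rw [hψ, hψ]
  · by_cases hb : b = u
    · have hax : a ≠ x := fun he => h2 ⟨he, hb⟩
      have hbx : b ≠ x := fun he => hxu (he.symm.trans hb)
      rw [← hψall a b, ← h.adj v (ψ a) (ψ b) (fun he => hax ((hψv a).1 he))
          (fun he => hbx ((hψv b).1 he))]
      show H.Adj (f a) (f b) ↔ H.Adj (g (ψ a)) (g (ψ b))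
      rw [hψ, hψ]
    · exact h.adj u a b ha hb

end Pool.Agent.W862.RC
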